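import Pool.Agent.Helper1.KA.GeneralB
import Pool.Agent.Helper33.KL.ModS

set_option autoImplicit false

/-!
Project KA (MP_0b9e0b_ag), module KA-4: the sum `SS ρ z` and the relative degree depend only on
the reduced point. Copy of `Helper33.KL.ModS`.
-/

namespace Pool.Agent.Helper33.KA

open Pool.Agent.Helper16
open Pool.Agent.Helper1.KA
open Pool.Agent.Helper1.KL (Key key fld red tr ec xc yc perp cls)
open Pool.Agent.Helper33.KL (fld_eq getD_map key_map fld_map key_eq_iff exists_ext cast_map
  ec_map red_map tr_map tr_tr exists_cast charP_K xc_mem yc_mem ec_mem fld_tr)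

section Main

variable {k : Type} [Field k] {p a : ℕ} [Fact p.Prime] [CharP k p] {n : ℕ} {c : Fin n → k}

theorem exists_match {N N' : Type} [Field N] [Field N']
    [Algebra (RatFunc k) N] [Algebra (RatFunc k) N'] (z : Fin n ⊕ Fin n → Option N)
    (z' : Fin n ⊕ Fin n → Option N') (ρ : Fin n → ZMod p) (hz : XV p a c N z)
    (hz' : XV p a c N' z')
    (hk : key (RatFunc k) (red ρ z) = key (RatFunc k) (red ρ z')) :
    ∃ (E Ω : Type) (_ : Field E) (_ : Field Ω) (_ : Algebra (RatFunc k) E)
      (_ : Algebra (RatFunc k) Ω) (ι : E →ₐ[RatFunc k] N) (ψ : E →ₐ[RatFunc k] Ω)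
      (ι' : N' →ₐ[RatFunc k] Ω) (zE : Fin n ⊕ Fin n → Option E) (h : Fin n → ZMod p),
      (fun j => (zE j).map ι) = z ∧ ∑ i, ρ i * h i = 0 ∧
      (fun j => (zE j).map ψ) = tr h (fun j => (z' j).map ι') ∧
      red ρ (fun j => (zE j).map ψ) = red ρ (fun j => (z' j).map ι') := by
  obtain ⟨hn, hP⟩ := (key_eq_iff _ _).1 hk
  let K := RatFunc k
  let q : Fin n ⊕ Unit → N := fun j => (red ρ z j).getD 0
  let d : Fin n ⊕ Unit → N' := fun j => (red ρ z' j).getD 0
  obtain ⟨φ, hφ⟩ := HC.exists_relHom q d hP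
  let F := IntermediateField.adjoin K (Set.range q)
  let E := fld K z
  have hFE : F ≤ E := by
    refine IntermediateField.adjoin_le_iff.2 ?_
    rintro _ ⟨j, rfl⟩
    rcases j with i | u
    · exact xc_mem z i
    · exact ec_mem ρ z
  have halg : ∀ u ∈ E, IsAlgebraic F u := fun u hu => fld_isAlgebraic hz F
    (fun i => IntermediateField.subset_adjoin _ _ ⟨Sum.inl i, rfl⟩) u hu
  let Ω := AlgebraicClosure N'
  obtain ⟨ψ, hψ⟩ : ∃ ψ : E →ₐ[K] Ω, ∀ u : F, ψ (IntermediateField.inclusion hFE u) =
      algebraMap N' Ω (φ u) := by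
    refine exists_ext (IntermediateField.inclusion hFE) (fun u => ?_)
      ((IsScalarTower.toAlgHom K N' Ω).comp φ)
    obtain ⟨P, hP, h⟩ := halg u u.2
    refine ⟨P, hP, ?_⟩
    apply Subtype.ext
    have h1 : E.val (P.eval₂ ((IntermediateField.inclusion hFE : F →ₐ[K] E) : F →+* E) u) =
        P.eval₂ (algebraMap F N) (u : N) := by
      change (E.val : E →+* N) _ = _
      rw [Polynomial.hom_eval₂]
      rfl
    exact h1.trans h
  have hxv : ∀ i, ψ ⟨xc z i, xc_mem z i⟩ = algebraMap N' Ω (xc z' i) := by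
    intro i
    have h1 := hψ ⟨q (Sum.inl i), IntermediateField.subset_adjoin _ _ ⟨Sum.inl i, rfl⟩⟩
    rw [hφ] at h1
    exact h1
  have hev : ψ ⟨ec ρ z, ec_mem ρ z⟩ = algebraMap N' Ω (ec ρ z') := by
    have h1 := hψ ⟨q (Sum.inr ()), IntermediateField.subset_adjoin _ _ ⟨Sum.inr (), rfl⟩⟩
    rw [hφ] at h1
    exact h1
  have hzE0 : ∀ j, ∃ w : Option E, w.map E.val = z j := by
    intro j
    cases hj : z j with
    | none => exact ⟨none, rfl⟩
    | some u => exact ⟨some ⟨u, IntermediateField.subset_adjoin _ _ ⟨j, hj⟩⟩, rfl⟩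
  choose zE hzE using hzE0
  have hval : ∀ j, ψ ((zE j).getD 0) = ψ ⟨(z j).getD 0, by
      rw [← hzE j, getD_map]; exact ((zE j).getD 0).2⟩ := by
    intro j
    congr 1
    apply Subtype.ext
    change _ = (z j).getD 0
    rw [← hzE j, getD_map]
    rfl
  have hx : ∀ i, (zE (Sum.inl i)).map ψ = (z' (Sum.inl i)).map (algebraMap N' Ω) := by
    intro i
    have h1 : z (Sum.inl i) = none ↔ z' (Sum.inl i) = none := hn (Sum.inl i)
    have h2 := hval (Sum.inl i)
    have h3 : ψ ((zE (Sum.inl i)).getD 0) = algebraMap N' Ω ((z' (Sum.inl i)).getD 0) :=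
      h2.trans (hxv i)
    rw [← hzE (Sum.inl i), Option.map_eq_none_iff] at h1
    cases hi : zE (Sum.inl i) with
    | none => rw [h1.1 hi]; rfl
    | some w =>
      cases hi' : z' (Sum.inl i) with
      | none => rw [h1.2 hi'] at hi; exact absurd hi (by simp)
      | some w' =>
        rw [hi, hi'] at h3
        exact congrArg some h3
  have hy : ∀ i, ∃ g : ZMod p, (zE (Sum.inr i)).map ψ =
      ((z' (Sum.inr i)).map (algebraMap N' Ω)).map (fun d => d + g.cast) ∧
      (z' (Sum.inr i) = none → g = 0) := by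
    intro i
    have hni : z (Sum.inl i) = none ↔ z' (Sum.inl i) = none := hn (Sum.inl i)
    rcases hz.cases i with ⟨h1, h2, -, -⟩ | ⟨h1, h2, h3⟩
    · rcases hz'.cases i with ⟨h1', h2', -, -⟩ | ⟨h1', h2', h3'⟩
      · refine ⟨0, ?_, fun _ => rfl⟩
        have h4 := hzE (Sum.inr i)
        rw [h2, Option.map_eq_none_iff] at h4
        rw [h4, h2']
        rfl
      · exfalso
        rw [h1, h1'] at hni
        exact absurd (hni.1 rfl) (by simp)
    · rcases hz'.cases i with ⟨h1', h2', -, -⟩ | ⟨h1', h2', h3'⟩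
      · exfalso
        rw [h1, h1'] at hni
        exact absurd (hni.2 rfl) (by simp)
      · have := charP_K k p Ω
        have h7 : (⟨yc z i, yc_mem z i⟩ : E) ^ p - ⟨yc z i, yc_mem z i⟩ =
            algebraMap K E RatFunc.X * algebraMap K E (RatFunc.C (c i)) *
              ⟨xc z i, xc_mem z i⟩ ^ a + ⟨xc z i, xc_mem z i⟩ := Subtype.ext h3
        have h8 := congrArg ψ h7
        rw [map_sub, map_pow, map_add, map_mul, map_mul, map_pow, hxv, ψ.commutes,
          ψ.commutes] at h8
        have h9 := congrArg (algebraMap N' Ω) h3'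
        rw [map_sub, map_pow, map_add, map_mul, map_mul, map_pow,
          ← IsScalarTower.algebraMap_apply, ← IsScalarTower.algebraMap_apply] at h9
        obtain ⟨g, hg⟩ := exists_cast (p := p) (h8.trans h9.symm)
        refine ⟨g, ?_, fun h10 => absurd (h10.symm.trans h2') (by simp)⟩
        have h11 : zE (Sum.inr i) = some ⟨yc z i, yc_mem z i⟩ := by
          have h12 := hzE (Sum.inr i)
          rw [h2] at h12
          obtain ⟨e, he, he'⟩ := Option.map_eq_some_iff.1 h12
          rw [he]
          congr 1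
          exact Subtype.ext he'
        rw [h11, h2']
        exact congrArg some hg
  choose h hh hh0 using hy
  let ι' : N' →ₐ[K] Ω := IsScalarTower.toAlgHom K N' Ω
  have hmain : (fun j => (zE j).map ψ) = tr h (fun j => (z' j).map ι') := by
    funext j
    rcases j with i | i
    · exact hx i
    · exact hh i
  have hec : ec ρ (fun j => (zE j).map ψ) = algebraMap N' Ω (ec ρ z') := by
    rw [ec_map, ← hev]
    congr 1
    apply Subtype.ext
    have h1 : E.val (ec ρ zE) = ec ρ z := by
      rw [← ec_map]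
      congr 1
      exact funext hzE
    exact h1
  have hred : red ρ (fun j => (zE j).map ψ) = red ρ (fun j => (z' j).map ι') := by
    funext j
    rcases j with i | u
    · exact hx i
    · change some (ec ρ fun j => (zE j).map ψ) = some (ec ρ fun j => (z' j).map ι')
      rw [hec, ec_map]
      rfl
  refine ⟨E, Ω, inferInstance, inferInstance, inferInstance, inferInstance, E.val, ψ, ι', zE, h,
    funext hzE, ?_, hmain, hred⟩
  have := charP_K k p Ω
  have h1 : ec ρ (tr h (fun j => (z' j).map ι')) = ec ρ (fun j => (z' j).map ι') := by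
    rw [← hmain, hec, ec_map]
    rfl
  have h2 : ec ρ (tr h (fun j => (z' j).map ι')) = ec ρ (fun j => (z' j).map ι') +
      ((∑ i, ρ i * h i : ZMod p).cast : Ω) := by
    unfold ec
    have h3 : ((∑ i, ρ i * h i : ZMod p).cast : Ω) = ∑ i, (ρ i).cast * (h i).cast := by
      change ZMod.castHom (dvd_refl p) Ω _ = _
      rw [map_sum]
      exact Finset.sum_congr rfl fun i _ => map_mul _ _ _
    rw [h3, ← Finset.sum_add_distrib]
    refine Finset.sum_congr rfl fun i _ => ?_
    rw [← mul_add]
    congr 1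
    change (((z' (Sum.inr i)).map ι').map (fun d => d + ((h i).cast : Ω))).getD 0 =
      ((z' (Sum.inr i)).map ι').getD 0 + ((h i).cast : Ω)
    cases hi : z' (Sum.inr i) with
    | none => simp [hh0 i hi]
    | some u => rfl
  rw [h1] at h2
  have h4 : ZMod.castHom (dvd_refl p) Ω (∑ i, ρ i * h i) = 0 := by
    change ((∑ i, ρ i * h i : ZMod p).cast : Ω) = 0
    linear_combination -h2
  exact (map_eq_zero _).1 h4

/-- KA-4. -/
theorem modS (k : Type) [Field k] (p a : ℕ) [Fact p.Prime] [CharP k p] {n : ℕ} (c : Fin n → k)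
    (r : ℕ) : ModS k p a c r := by
  intro N N' _ _ _ _ z z' ρ hz hz' hk
  obtain ⟨E, Ω, _, _, _, _, ι, ψ, ι', zE, h, h1, h2, h3, h4⟩ := exists_match z z' ρ hz hz' hk
  have := charP_K k p Ω
  have := charP_K k p N'
  have hkey : ∀ g : Fin n → ZMod p,
      key (RatFunc k) (tr g z) = key (RatFunc k) (tr (g + h) z') := by
    intro g
    rw [← h1, tr_map, key_map, ← key_map ψ, ← tr_map, h3, tr_tr, tr_map, key_map]
  constructor
  · have hperp : ∀ g : Fin n → ZMod p, g ∈ perp ρ ↔ g + h ∈ perp ρ := by
      intro g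
      unfold perp
      rw [Finset.mem_filter, Finset.mem_filter]
      have : ∑ i, ρ i * (g + h) i = ∑ i, ρ i * g i := by
        rw [← add_zero (∑ i, ρ i * g i), ← h2, ← Finset.sum_add_distrib]
        exact Finset.sum_congr rfl fun i _ => mul_add _ _ _
      rw [this]
      simp only [Finset.mem_univ, true_and]
    change ∑ g ∈ perp ρ, cl p a c r (tr g z) = ∑ g ∈ perp ρ, cl p a c r (tr g z')
    refine Finset.sum_equiv (Equiv.addRight h) (fun g => ?_) (fun g _ => ?_)
    · rw [Equiv.coe_addRight]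
      exact hperp g
    · rw [Equiv.coe_addRight]
      change cls _ _ r _ = cls _ _ r _
      unfold cls
      rw [hkey g]
  · have e1 : (fld (RatFunc k) (red ρ zE)).relfinrank (fld (RatFunc k) zE) =
        (fld (RatFunc k) (red ρ z)).relfinrank (fld (RatFunc k) z) := by
      rw [← h1, red_map, fld_map, fld_map, IntermediateField.relfinrank_map_map]
    have e2 : (fld (RatFunc k) (red ρ zE)).relfinrank (fld (RatFunc k) zE) =
        (fld (RatFunc k) (red ρ z')).relfinrank (fld (RatFunc k) z') := by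
      rw [← IntermediateField.relfinrank_map_map _ _ ψ, ← fld_map, ← fld_map, ← red_map, h4, h3,
        fld_tr, red_map, fld_map, fld_map, IntermediateField.relfinrank_map_map]
    rw [← e1, e2]

end Main

end Pool.Agent.Helper33.KA
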